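import Mathlib
import Pool.Agent.X213.Forms
import Pool.Agent.X213.Eng4

set_option autoImplicit false

/-!
# The Harbourne-Hirschowitz conjecture: classes controlled by the fourth largest multiplicity

The class `(d; w)` is `Far` (`Pool.Agent.X213.Eng4.Far`) if its multiplicities `v 0 ≥ v 1 ≥ ⋯` in
decreasing order satisfy one of the following conditions:
* `v 3 = 0`, or `2 (v 3) ^ 2 + 3 v 3 + 2 ≤ v 2`;
* `2 ^ 17 (v 3 + 1) ^ 4 + ∑_{i < 3} v i (v i + 1) ≤ (d + 1) (d + 2)`, or
  `2 ^ 17 (v 3 + 1) ^ 4 ≤ ∑_{i ≥ 3} (v i + 1).choose 2`;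
* `v i ≤ m` for all `i ≥ 5`, where `m ≥ 1`, and `4 m ^ 2 + 8 m + 5 ≤ v 2`, or one of the two
  inequalities before with `4 m ^ 2 + 8 m + 5` instead of `v 3 + 1`.

At general points the linear system of every class in the Weyl group orbit of a standard class which
is `Far` is non-special. A `(-1)`-special system is special; and a special system is
`(-1)`-special, or, after the removal of disjoint `(-1)`-curves and finitely many quadratic
transformations, it is a special standard class which is not `Far`.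
-/

namespace Pool.Agent.Results.MP_6b2d39_ag.FourthMultiplicityForms

open MvPolynomial Pool.Agent.TH167.SHDefs
open Pool.Agent.Y536.SH (Standard)
open Pool.Agent.X213.Forms (ForGeneral Carries)
open Pool.Agent.X213.Eng4 (Far)

theorem result (r d : ℕ) (w : Fin (r + 4) → ℕ) : ForGeneral fun P : Fin (r + 4) → Fin 2 → ℂ =>
    ((∃ (d' : ℕ) (w' : Fin (r + 4) → ℕ), Carries d w d' w' ∧ Standard d' w' ∧ Far d' w') →
      ¬ Special P d w) ∧
    (MinusOneSpecial P d w → Special P d w) ∧
    (Special P d w → MinusOneSpecial P d w ∨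
      ∃ (d'' : ℕ) (w'' : Fin (r + 4) → ℕ) (k : ℕ) (G : Fin k → MvPolynomial (Fin 3) ℂ)
        (e : Fin k → ℕ) (u : Fin k → Fin (r + 4) → ℕ) (N : Fin k → ℕ) (d' : ℕ)
        (w' : Fin (r + 4) → ℕ),
        Decomp P d w d'' w'' G e u N ∧
        Relation.ReflTransGen Quadratic (d'', w'') (d', w') ∧ Standard d' w' ∧
        Special P d' w' ∧ ¬ Far d' w') :=
  Pool.Agent.X213.Forms.harbourne (Q := fun d' w' => Far d' w')
    (fun _ _ _ _ hP _ _ hs hG => Pool.Agent.X213.Eng4.far_exp hs hG hP) d w

end Pool.Agent.Results.MP_6b2d39_ag.FourthMultiplicityForms
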