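import Mathlib
import Pool.Agent.TH442.NF.HH
import Pool.Agent.X214.NV.Dom

set_option autoImplicit false

/-!
# The Harbourne-Hirschowitz conjecture for classes with a near-uniform reduced form

For every `(d; w)` and general points the linear system `(d; w)` is special if and only if it is
`(-1)`-special, unless its reduced form is a special standard class `(d'; w')` which is not dominated.
Here `(d'; w')` is dominated if there are a set `S` of at least `36` of the points, and a vector `v`
which takes only the values `m`, `m + 1` (`m ≥ 1` arbitrary) on `S`, such that `w' ≤ v` on `S`,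
`w' ≤ 1` off `S`, and `w' = v` on `S` or `∑ (v i + 1).choose 2 ≤ (d' + 2).choose 2` (sum over `S`).
-/

namespace Pool.Agent.Results.MP_6b2d39_ag.NearUniformReducedForms

open MvPolynomial Pool.Agent.TH167.SHDefs Pool.Agent.X214.NV

/-- The class is standard. -/
def Standard {n : ℕ} (d : ℕ) (w : Fin n → ℕ) : Prop :=
  ∀ i j k : Fin n, i ≠ j → i ≠ k → j ≠ k → w i + w j + w k ≤ d

theorem result : ∀ n : ℕ, 4 ≤ n → ∀ (d : ℕ) (w : Fin n → ℕ),
    ∃ F : MvPolynomial (Fin n × Fin 2) ℂ, F ≠ 0 ∧
      ∀ P : Fin n → Fin 2 → ℂ, MvPolynomial.eval (fun ij : Fin n × Fin 2 => P ij.1 ij.2) F ≠ 0 →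
        (MinusOneSpecial P d w → Special P d w) ∧
        (Special P d w → MinusOneSpecial P d w ∨
          ∃ (d'' : ℕ) (w'' : Fin n → ℕ) (k : ℕ) (G : Fin k → MvPolynomial (Fin 3) ℂ)
            (e : Fin k → ℕ) (u : Fin k → Fin n → ℕ) (N : Fin k → ℕ) (d' : ℕ) (w' : Fin n → ℕ),
            Decomp P d w d'' w'' G e u N ∧
            Relation.ReflTransGen Quadratic (d'', w'') (d', w') ∧ Standard d' w' ∧
            Special P d' w' ∧ ¬ Dominated d' w') := by
  intro n hn d w
  exact Pool.Agent.TH442.NF.hh_open hn (Q := fun d' w' => Dominated d' w')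
    (fun hP d1 w1 _ hG => dom_exp hG hP) d w

end Pool.Agent.Results.MP_6b2d39_ag.NearUniformReducedForms
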